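import Pool.Agent.H717.PM.Stm

set_option autoImplicit false

namespace Pool.Agent.H224.PM

open Pool.Agent.H717.PM Pool.Agent.H622R2
open Pool.Agent.R39.PCG (WTree IsInterval IsIntervalPCG)

/-- Finitely many closed intervals suffice. -/
theorem sel (n K : ℕ) (d : Fin n → Fin n → ℝ) (J : Fin K → Set ℝ) (hJ : ∀ i, IsInterval (J i))
    (hdis : ∀ i j, i ≠ j → Disjoint (J i) (J j)) :
    ∃ k : ℕ, k ≤ K ∧ k ≤ n * n ∧ ∃ lo hi : ℕ → ℝ, (∀ i < k, 0 ≤ lo i ∧ 0 ≤ hi i) ∧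
      (∀ i < k, ∀ j < k, i ≠ j → hi i < lo j ∨ hi j < lo i) ∧
      ∀ u v, u ≠ v → ((∃ i, d u v ∈ J i) ↔ ∃ i < k, lo i ≤ d u v ∧ d u v ≤ hi i) := by
  classical
  set A : Finset (Fin K) := Finset.univ.filter
    (fun i => ∃ p : Fin n × Fin n, p.1 ≠ p.2 ∧ d p.1 p.2 ∈ J i) with hA
  have hmem : ∀ i, i ∈ A ↔ ∃ p : Fin n × Fin n, p.1 ≠ p.2 ∧ d p.1 p.2 ∈ J i := by
    intro i
    simp [hA]
  have hK : A.card ≤ K := by
    refine (Finset.card_le_univ A).trans ?_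
    rw [Fintype.card_fin]
  have hn : A.card ≤ n * n := by
    choose p hp using fun a : A => (hmem a.1).mp a.2
    have hinj : Function.Injective p := by
      intro a b hab
      by_contra hne
      have hne' : a.1 ≠ b.1 := fun h => hne (Subtype.ext h)
      have h1 := (hp a).2
      have h2 := (hp b).2
      rw [← hab] at h2
      exact Set.disjoint_left.mp (hdis _ _ hne') h1 h2
    have := Fintype.card_le_of_injective p hinj
    rw [Fintype.card_prod, Fintype.card_fin, Fintype.card_coe] at this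
    exact this
  have hex : ∀ a : A, ∃ lo hi : ℝ, lo ∈ J a.1 ∧ hi ∈ J a.1 ∧ lo ≤ hi ∧
      ∀ u v, u ≠ v → d u v ∈ J a.1 → lo ≤ d u v ∧ d u v ≤ hi := by
    intro a
    set P : Finset (Fin n × Fin n) := Finset.univ.filter
      (fun p : Fin n × Fin n => p.1 ≠ p.2 ∧ d p.1 p.2 ∈ J a.1) with hP
    have hPm : ∀ p, p ∈ P ↔ (p.1 ≠ p.2 ∧ d p.1 p.2 ∈ J a.1) := by
      intro p
      simp [hP]
    have hPne : P.Nonempty := by
      obtain ⟨p, hp⟩ := (hmem a.1).mp a.2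
      exact ⟨p, (hPm p).mpr hp⟩
    obtain ⟨p1, hp1, h1⟩ := Finset.exists_min_image P (fun p => d p.1 p.2) hPne
    obtain ⟨p2, hp2, h2⟩ := Finset.exists_max_image P (fun p => d p.1 p.2) hPne
    refine ⟨d p1.1 p1.2, d p2.1 p2.2, ((hPm p1).mp hp1).2, ((hPm p2).mp hp2).2, h1 p2 hp2, ?_⟩
    intro u v huv huvJ
    have : (u, v) ∈ P := (hPm (u, v)).mpr ⟨huv, huvJ⟩
    exact ⟨h1 (u, v) this, h2 (u, v) this⟩
  choose lo' hi' h1 h2 h3 h4 using hex
  set e : Fin A.card ≃ A := A.equivFin.symm with he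
  refine ⟨A.card, hK, hn, fun i => if h : i < A.card then lo' (e ⟨i, h⟩) else 0,
    fun i => if h : i < A.card then hi' (e ⟨i, h⟩) else 0, ?_, ?_, ?_⟩
  · intro i hi
    simp only [dif_pos hi]
    exact ⟨(hJ _).2 (h1 _), (hJ _).2 (h2 _)⟩
  · intro i hi j hj hij
    simp only [dif_pos hi, dif_pos hj]
    by_contra hcon
    push Not at hcon
    set a := e ⟨i, hi⟩ with ha
    set b := e ⟨j, hj⟩ with hb
    have hab : a.1 ≠ b.1 := by
      intro h
      have : a = b := Subtype.ext h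
      have := e.injective this
      exact hij (congrArg Fin.val this)
    have hxa : max (lo' a) (lo' b) ∈ J a.1 :=
      (hJ a.1).1.out (h1 a) (h2 a) ⟨le_max_left _ _, max_le (h3 a) hcon.1⟩
    have hxb : max (lo' a) (lo' b) ∈ J b.1 :=
      (hJ b.1).1.out (h1 b) (h2 b) ⟨le_max_right _ _, max_le hcon.2 (h3 b)⟩
    exact Set.disjoint_left.mp (hdis _ _ hab) hxa hxb
  · intro u v huv
    constructor
    · rintro ⟨i, hi⟩
      have hiA : i ∈ A := (hmem i).mpr ⟨(u, v), huv, hi⟩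
      set j := e.symm ⟨i, hiA⟩ with hj
      refine ⟨j.1, j.2, ?_⟩
      simp only [dif_pos j.2]
      have : e ⟨j.1, j.2⟩ = ⟨i, hiA⟩ := e.apply_symm_apply _
      rw [this]
      exact h4 ⟨i, hiA⟩ u v huv hi
    · rintro ⟨i, hi, hlo, hhi⟩
      simp only [dif_pos hi] at hlo hhi
      exact ⟨(e ⟨i, hi⟩).1, (hJ _).1.out (h1 _) (h2 _) ⟨hlo, hhi⟩⟩

theorem t_selInt (h : S_bun') : S_selInt := by
  intro I hI
  obtain ⟨-, τ, J, hJ, hdis, hadj⟩ := hI
  obtain ⟨hn, D, hD, hDτ⟩ := h I.1.length τ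
  obtain ⟨k, hkK, hkn, lo, hi, hnn, hdj, hiff⟩ := sel I.1.length I.2 (fun u v => τ.d u v) J hJ hdis
  refine ⟨hn, k, hkK, by omega, D, lo, hi, hD, hnn, hdj, ?_⟩
  intro x hx y hy hxy
  have hne : (⟨x, hx⟩ : Fin I.1.length) ≠ ⟨y, hy⟩ := fun h => hxy (congrArg Fin.val h)
  have e1 : adjM I.1 x y = true ↔ (matGraph I.1).Adj ⟨x, hx⟩ ⟨y, hy⟩ := by
    unfold adjM matGraph
    simp only [Bool.or_eq_true]
    constructor
    · intro h
      exact ⟨hne, h⟩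
    · intro h
      exact h.2
  have e2 : τ.d ⟨x, hx⟩ ⟨y, hy⟩ = D x y := hDτ ⟨x, hx⟩ ⟨y, hy⟩
  rw [e1, hadj _ _ hne, hiff _ _ hne, e2]

end Pool.Agent.H224.PM
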